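import Pool.Agent.H484.HH.Stm

set_option autoImplicit false

open Finset

namespace Pool.Agent.H484.HH

theorem t_CRT : S_CRT := by
  intro s b hb hinj k a ha
  have hpos : ∀ i, 0 < b i ^ k i := fun i => pow_pos (hb i).pos _
  have hco : Set.Pairwise ((Finset.univ : Finset (Fin s)) : Set (Fin s))
      (Function.onFun Nat.Coprime fun i => b i ^ k i) := by
    intro i _ j _ hij
    exact Nat.Coprime.pow _ _ ((Nat.coprime_primes (hb i) (hb j)).2 fun h => hij (hinj h))
  obtain ⟨a1, ha1⟩ := Nat.chineseRemainderOfFinset a (fun i => b i ^ k i) Finset.univ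
    (fun i _ => (hpos i).ne') hco
  have hP : 0 < ∏ i, b i ^ k i := Finset.prod_pos fun i _ => hpos i
  refine ⟨a1 % ∏ i, b i ^ k i, Nat.mod_lt _ hP, fun n => ?_⟩
  have h1 : (∀ i, n % b i ^ k i = a i) ↔ ∀ i, n ≡ a1 [MOD b i ^ k i] := by
    refine forall_congr' fun i => ?_
    have h2 := ha1 i (Finset.mem_univ i)
    unfold Nat.ModEq at h2 ⊢
    rw [h2, Nat.mod_eq_of_lt (ha i)]
  rw [h1]
  constructor
  · intro h
    have h2 : ((∏ i, b i ^ k i : ℕ) : ℤ) ∣ (a1 : ℤ) - n := by
      rw [Nat.cast_prod]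
      apply Finset.prod_dvd_of_coprime
      · intro i hi j hj hij
        have := hco hi hj hij
        exact Nat.isCoprime_iff_coprime.2 this
      · intro i _
        exact (Nat.modEq_iff_dvd).1 (h i)
    exact (Nat.modEq_iff_dvd).2 h2
  · intro h i
    have h2 : n ≡ a1 [MOD ∏ i, b i ^ k i] := by
      unfold Nat.ModEq
      exact h
    exact h2.of_dvd (Finset.dvd_prod_of_mem (fun i => b i ^ k i) (Finset.mem_univ i))

end Pool.Agent.H484.HH
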